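import Pool.Agent.Q30.Foc2
import Pool.Agent.Q30.Foc3

/-!
# MP_d5cca6: a finitely generated non-amenable group with property (PH) from focal actions

The group is `F_∞ ⋊ ℤ` (the free group of rank two), where `F_∞` is free on `a_i`, `i ∈ ℤ`, and
`t` shifts the indices.  The norms `∑ 4 ^ (± i_j)` of the reduced words `∏ a_{i_j}^{± 1}` are
dilated by `t ^ {± 1}`, so their unit balls are confining sets, which define two focal actions on
Cayley graphs; together the two norms are proper.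
-/

namespace Pool.Agent.Results.MP_d5cca6_al.FocalNonAmenable

open Q30.Foc

/-- The pull back of the dilation data along a homomorphism. -/
def comap {G H : Type} [Group G] [Group H] (D : Dil G) (f : H →* G) (t : H) (ht : f t = D.t) :
    Dil H where
  κ h := D.κ (f h)
  κ_mul g h := by rw [map_mul, D.κ_mul]
  ν h := D.ν (f h)
  ν_nonneg h := D.ν_nonneg _
  ν_mul g h := by rw [map_mul]; exact D.ν_mul _ _
  ν_inv g := by rw [map_inv]; exact D.ν_inv _
  t := t
  κ_t := by rw [ht, D.κ_t]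
  ν_t := by rw [ht, D.ν_t]

theorem nrm_one (w : ℤ → ℝ) : nrm w 1 = 0 := by simp [nrm]

theorem nrm_of (w : ℤ → ℝ) (i : ℤ) : nrm w (FreeGroup.of i) = w i := by simp [nrm]

/-- the first norm -/
noncomputable def Dp : Dil GG where
  κ g := g.k
  κ_mul g h := rfl
  ν g := nrm (fun i => 4 ^ i) g.h
  ν_nonneg g := nrm_nonneg _ (fun i => by positivity) _
  ν_mul g h := by
    rw [mul_h]
    refine (nrm_mul _ (fun i => by positivity) _ _).trans ?_
    have h1 := nrm_sig_le (fun i => (4 : ℝ) ^ i) (fun i => by positivity) g.k h.h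
    have h2 : (fun i : ℤ => (4 : ℝ) ^ (i + g.k)) = fun i => 4 ^ g.k * 4 ^ i := by
      funext i
      rw [← zpow_add₀ (by norm_num), add_comm]
    rw [h2, nrm_smul] at h1
    linarith
  ν_inv g := by
    rw [inv_h]
    have h1 := nrm_sig_le (fun i => (4 : ℝ) ^ i) (fun i => by positivity) (-g.k) g.h⁻¹
    have h2 : (fun i : ℤ => (4 : ℝ) ^ (i + -g.k)) = fun i => 4 ^ (-g.k) * 4 ^ i := by
      funext i
      rw [← zpow_add₀ (by norm_num), add_comm]
    rw [h2, nrm_smul, nrm_inv] at h1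
    exact h1
  t := ⟨1, 1⟩
  κ_t := rfl
  ν_t := nrm_one _

/-- the second norm -/
noncomputable def Dm : Dil GG where
  κ g := -g.k
  κ_mul g h := by rw [mul_k]; ring
  ν g := nrm (fun i => 4 ^ (-i)) g.h
  ν_nonneg g := nrm_nonneg _ (fun i => by positivity) _
  ν_mul g h := by
    rw [mul_h]
    refine (nrm_mul _ (fun i => by positivity) _ _).trans ?_
    have h1 := nrm_sig_le (fun i => (4 : ℝ) ^ (-i)) (fun i => by positivity) g.k h.h
    have h2 : (fun i : ℤ => (4 : ℝ) ^ (-(i + g.k))) = fun i => 4 ^ (-g.k) * 4 ^ (-i) := by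
      funext i
      rw [← zpow_add₀ (by norm_num)]
      congr 1
      ring
    rw [h2, nrm_smul] at h1
    linarith
  ν_inv g := by
    rw [inv_h]
    have h1 := nrm_sig_le (fun i => (4 : ℝ) ^ (-i)) (fun i => by positivity) (-g.k) g.h⁻¹
    have h2 : (fun i : ℤ => (4 : ℝ) ^ (-(i + -g.k))) = fun i => 4 ^ (- -g.k) * 4 ^ (-i) := by
      funext i
      rw [← zpow_add₀ (by norm_num)]
      congr 1
      ring
    rw [h2, nrm_smul, nrm_inv] at h1
    exact h1
  t := ⟨1, -1⟩
  κ_t := rfl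
  ν_t := nrm_one _

theorem finite_balls (K : ℤ) : {g : GG | |g.k| ≤ K ∧ nrm (fun i => 4 ^ i) g.h ≤ 4 ^ K ∧
    nrm (fun i => 4 ^ (-i)) g.h ≤ 4 ^ K}.Finite := by
  have h1 := (finite_nrm K).prod (Set.finite_Icc (-K) K)
  refine (h1.image (fun p : FreeGroup ℤ × ℤ => (⟨p.1, p.2⟩ : GG))).subset ?_
  rintro g ⟨h2, h3, h4⟩
  exact ⟨(g.h, g.k), ⟨⟨h3, h4⟩, abs_le.1 h2⟩, rfl⟩

/-- There is a finitely generated non-amenable group with property (PH) from focal and lineal
actions; in fact there are two focal actions whose diagonal action is proper. -/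
theorem result :
    ∃ (G : Type) (_ : Group G), Group.FG G ∧ ¬ Amenable G ∧ PH G := by
  refine ⟨GG, inferInstance, fg, not_amenable, ⊤, inferInstance, ?_⟩
  let f : (⊤ : Subgroup GG) →* GG := (⊤ : Subgroup GG).subtype
  refine ph'_of_two (comap Dp f ⟨Dp.t, Subgroup.mem_top _⟩ rfl)
    (comap Dm f ⟨Dm.t, Subgroup.mem_top _⟩ rfl) ?_ ?_ ?_
  · refine ⟨⟨⟨FreeGroup.of 0, 1⟩, Subgroup.mem_top _⟩, rfl, ?_⟩
    change 0 < nrm (fun i => (4 : ℝ) ^ i) (FreeGroup.of 0)
    rw [nrm_of]
    norm_num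
  · refine ⟨⟨⟨FreeGroup.of 0, -1⟩, Subgroup.mem_top _⟩, rfl, ?_⟩
    change 0 < nrm (fun i => (4 : ℝ) ^ (-i)) (FreeGroup.of 0)
    rw [nrm_of]
    norm_num
  · intro K
    exact (finite_balls K).preimage (Subtype.val_injective.injOn)

end Pool.Agent.Results.MP_d5cca6_al.FocalNonAmenable
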